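import Pool.Agent.helper13.U4.SpecD

set_option autoImplicit false

namespace Pool.Agent.U4

open Pool.Agent.UL

theorem PG (h1 : PRM_stmt) : PG_stmt := by
  intro k q h v x hP hL hH τ hτ1 hτ2
  obtain ⟨b, e, hb7, heh, hτ, -, hb1, hsum⟩ := h1 k q h v hP τ (by omega) hτ2
  have hb := hb1 hτ1
  obtain ⟨hk, hh, hq, hv⟩ := hP
  obtain ⟨m, hm, hm1⟩ : ∃ m, h = 4 * m ∧ 1 ≤ m := by
    refine ⟨2 ^ (k - 2), ?_, Nat.one_le_two_pow⟩
    rw [hh]
    obtain ⟨j, rfl⟩ : ∃ j, k = j + 2 := ⟨k - 2, by omega⟩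
    rw [Nat.add_sub_cancel, pow_add]
    ring
  have hqh : 7 * h ≤ h * q := by
    rw [Nat.mul_comm h q]
    exact Nat.mul_le_mul_right h hq
  have hv' : v + 1 = 2 * (h * q) + h := by
    rw [hv, Nat.mul_assoc]
  have key : ∀ a g, 1 ≤ a → a ≤ 10 → (g = 1 ∧ a % 2 = 0 ∨ g = 0 ∧ a % 2 = 1) → 7 ≤ b + a - 1 → b + a - 1 ≤ 10 →
      (e + g) % 2 = 0 →
      ((2 * q - a) * h + (h - 1 - g)) + ((b + a - 1) * h + (e + g)) = τ ∧
      (2 * q - a) * h + (h - 1 - g) < v ∧ (b + a - 1) * h + (e + g) < v ∧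
      x ((2 * q - a) * h + (h - 1 - g)) (2 * h + 5) = true ∧ x ((b + a - 1) * h + (e + g)) (2 * h + 6) = true := by
    intro a g ha1 ha10 hg hc7 hc10 heg
    have e1 : (b + a - 1) * h ≤ 10 * h := Nat.mul_le_mul_right h hc10
    have e2 : 7 * h ≤ (b + a - 1) * h := Nat.mul_le_mul_right h hc7
    have e3 : (2 * q - a) * h + h ≤ 2 * (h * q) := by
      have e4 : (2 * q - a + 1) * h ≤ (2 * q) * h := Nat.mul_le_mul_right h (by omega)
      have e5 : (2 * q) * h = 2 * (h * q) := by ring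
      have e6 : (2 * q - a + 1) * h = (2 * q - a) * h + h := by ring
      omega
    have e7 : ((b + a - 1) * h) % 2 = 0 := by
      rw [Nat.mul_mod, show h % 2 = 0 by omega]
      simp
    have ht : (2 * q - a) * h + (h - 1 - g) < v := by omega
    have hu : (b + a - 1) * h + (e + g) < v := by omega
    refine ⟨hsum a g (by omega) (by omega) (by omega), ht, hu, ?_, ?_⟩
    · rcases hg with ⟨hg1, hg2⟩ | ⟨hg1, hg2⟩
      · exact hH.b5 (2 * q - a) (h - 1 - g) (by omega) (by omega) (by omega) (by omega) ht.le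
      · exact hH.b5' (2 * q - a) (h - 1 - g) (by omega) (by omega) (by omega) (by omega) ht.le
    · exact hH.b6 _ (by omega) hu.le (by omega)
  have fin : ∀ a g, 1 ≤ a → a ≤ 8 → (g = 1 ∧ a % 2 = 0 ∨ g = 0 ∧ a % 2 = 1) → 7 ≤ b + a - 1 → b + a - 1 ≤ 8 →
      (e + g) % 2 = 0 → Pr2 v x (4 * h + 11) τ := by
    intro a g ha1 ha8 hg hc7 hc8 heg
    have k1 := key a g ha1 (by omega) hg hc7 (by omega) heg
    have k2 := key (a + 2) g (by omega) (by omega) (by omega) (by omega) (by omega) heg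
    have e1 : (b + (a + 2) - 1) * h = (b + a - 1) * h + 2 * h := by
      have : b + (a + 2) - 1 = (b + a - 1) + 2 := by omega
      rw [this]
      ring
    refine ⟨2 * h + 5, 2 * h + 6, (2 * q - a) * h + (h - 1 - g), (b + a - 1) * h + (e + g),
      (2 * q - (a + 2)) * h + (h - 1 - g), (b + (a + 2) - 1) * h + (e + g), by omega, ?_, by omega,
      k1.1, k2.1, k1.2.1, k1.2.2.1, k2.2.1, k2.2.2.1, k1.2.2.2.1, k1.2.2.2.2, k2.2.2.2.1, k2.2.2.2.2⟩
    intro heq
    have k11 := k1.1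
    have k21 := k2.1
    rw [← heq, e1] at k21
    omega
  rcases Nat.mod_two_eq_zero_or_one e with he | he
  · rcases Nat.mod_two_eq_zero_or_one b with hb2 | hb2
    · exact fin (9 - b) 0 (by omega) (by omega) (by omega) (by omega) (by omega) (by omega)
    · exact fin (8 - b) 0 (by omega) (by omega) (by omega) (by omega) (by omega) (by omega)
  · rcases Nat.mod_two_eq_zero_or_one b with hb2 | hb2
    · exact fin (8 - b) 1 (by omega) (by omega) (by omega) (by omega) (by omega) (by omega)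
    · exact fin (9 - b) 1 (by omega) (by omega) (by omega) (by omega) (by omega) (by omega)

end Pool.Agent.U4
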